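import Pool.Agent.Helper43.AS.F

/-!
# The non-symmetric `L^p` Mahler inequality with `p` independent of the dimension

For every `s ≥ 1` there is one `p₁` such that the inequality of Q1 holds in all dimensions `n` for
all `p ≥ p₁` and all convex bodies `K` of Minkowski asymmetry at most `s` (that is, `-K` is contained
in a translate of `s K`); for bodies symmetric about a point one can take `p₁ = 16`, and in
dimensions `n ≥ 70 s (1 + log s)` one can take `p₁ = 250 s² (1 + log s)`. The same holds for all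
bodies with `M_∞ (K) ≥ λ^n`, for every `λ > e` (the minimum of `M_∞` is `(n+1)^(n+1)/n!`, and its
`n`-th root tends to `e`).

Outline.  (1) The Mahler volume: bodies of asymmetry at most `s` have `M_∞ (K) ≥ λ(s)^n`, `λ(s) > e`.
Let `C` be the cone over `K`, `N = n + 1`, `T` the truncated cone, `HT u = conv((1-u) T ∪ -u T)`.
The two-valued averaged inequality for cones (`Pool.Agent.Helper98.EQ.inc`, Pluennecke's method)
gives `N^N |C ∩ (c - C)| a^(1-t) b^t ≤ (N! |T|)²` for `a ≤ N! |HT u|` (all `u`) and `b ≤ N! |HT u|`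
(`u < t`). Bounded asymmetry makes `|HT u|` exponentially small at `u = 1/(1+s)`, while
`|HT u| ≥ (1-t)^N |T|` for `u < t`; with `t = 1/(2(1+s))` this gives an exponential gain
`(b/a)^t` in the product of the inequalities for `C` and for the dual cone.
(2) The quotient `(m(s) - b(s)) / (2 + s)`, `m(s) = log M_{1/s} (K)`, `b` the value of the
Gaussian bound, is nondecreasing in `s > 0` (starting module `TH581/S8`, no symmetry is needed);
its limit at `0` is bounded from below through `M_∞ ≤ M_p`.  This gives the comparison inequality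
`M_p (K) ≥ (M_∞ (K) / θ_n (p)) ^ (1 + 1/(2p)) · inf M_p (Δ_n - x)` for all `n`, `p > 0` and `K`, with
an explicit `θ_n (p)` that tends to `(n+1)^(n+1)/n!` as `p → ∞` (`Pool.Agent.Helper98.DF.compare`).
The value of the simplex is at most `(n+1)^(n+1)/n! · ((1+p)^(1+1/p)/p)^n`.  For `λ > e` this
settles all dimensions but finitely many, which are covered by the theorem for all bodies and all
`p ≥ p₀ (n)`; for `λ = 4` it settles all `n ≥ 3`, and `n ≤ 2` is covered by the theorem on joins.
-/

set_option autoImplicit false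

open MeasureTheory
open scoped ENNReal Pointwise

namespace Pool.Agent.Results.MP_5f4cdd_gt.DimensionFree

/-- the Euclidean space `ℝ^n` -/
abbrev E (n : ℕ) : Type := EuclideanSpace ℝ (Fin n)

/-- the `L^p` support function `(1/p) log (∫_K exp (p ⟨x, y⟩) dx / |K|)` -/
noncomputable def supportLp (p : ℝ) {n : ℕ} (K : Set (E n)) (y : E n) : ℝ :=
  (1 / p) * Real.log ((∫ x in K, Real.exp (p * inner ℝ x y)) / volume.real K)

/-- the `L^p` Mahler volume `|K| ∫ exp (-h_{p,K})` -/
noncomputable def mahlerLp (p : ℝ) {n : ℕ} (K : Set (E n)) : ℝ≥0∞ :=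
  volume K * ∫⁻ y : E n, ENNReal.ofReal (Real.exp (-supportLp p K y))

/-- the support function `h_K (y) = sup {⟨x, y⟩ : x ∈ K}` -/
noncomputable def supportInf {n : ℕ} (K : Set (E n)) (y : E n) : ℝ :=
  sSup ((fun x : E n => inner ℝ x y) '' K)

/-- the Mahler volume `M_∞ (K) = |K| ∫ exp (-h_K)` -/
noncomputable def mahlerInf {n : ℕ} (K : Set (E n)) : ℝ≥0∞ :=
  volume K * ∫⁻ y : E n, ENNReal.ofReal (Real.exp (-supportInf K y))

/-- the standard simplex -/
def simplex (n : ℕ) : Set (E n) := {z | (∀ i, 0 ≤ z i) ∧ ∑ i, z i ≤ 1}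

/-- the right hand side of the conjectured inequality -/
noncomputable def simplexMin (p : ℝ) (n : ℕ) : ℝ≥0∞ :=
  ⨅ x ∈ simplex n, mahlerLp p ((fun z => z - x) '' simplex n)

/-- convex bodies -/
structure IsConvexBody {n : ℕ} (K : Set (E n)) : Prop where
  isCompact : IsCompact K
  convex : Convex ℝ K
  interior_nonempty : (interior K).Nonempty

/-- the Minkowski asymmetry of `K` is at most `s`: `-K` lies in a translate of `s K` -/
def AsymmetryLE {n : ℕ} (K : Set (E n)) (s : ℝ) : Prop := ∃ x : E n, -K ⊆ s • K + {x}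

/-- **The `L^p` Mahler inequality with `p` independent of the dimension.** The inequality of Q1 holds,
in all dimensions `n`, for all convex bodies `K` of Minkowski asymmetry at most `s` and all
`p ≥ p₁ (s)`, with `p₁ (1) = 16`, and for all `p ≥ 250 s² (1 + log s)` if `n ≥ 70 s (1 + log s)`.
It also holds in all dimensions for all `K` with `M_∞ (K) ≥ λ ^ n`, `λ > e`, and all `p ≥ q₁ (λ)`, with
`q₁ (λ) = 16` for `λ ≥ 4`. -/
theorem result : ∃ p₁ q₁ : ℝ → ℝ, (∀ s : ℝ, 0 < p₁ s) ∧ p₁ 1 = 16 ∧
    (∀ lam : ℝ, 0 < q₁ lam) ∧ (∀ lam : ℝ, 4 ≤ lam → q₁ lam = 16) ∧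
    ∀ n : ℕ, 1 ≤ n → ∀ K : Set (E n), IsConvexBody K → ∀ p : ℝ,
      (∀ s : ℝ, 1 ≤ s → AsymmetryLE K s →
        (p₁ s ≤ p ∨ 70 * s * (1 + Real.log s) ≤ n ∧ 250 * s ^ 2 * (1 + Real.log s) ≤ p) →
          simplexMin p n ≤ mahlerLp p K) ∧
      (∀ lam : ℝ, Real.exp 1 < lam → ENNReal.ofReal (lam ^ n) ≤ mahlerInf K → q₁ lam ≤ p →
          simplexMin p n ≤ mahlerLp p K) := by
  classical
  choose! q hq hq2 using fun (lam : ℝ) (hlam : Real.exp 1 < lam) =>
    Pool.Agent.Helper98.DF.dimfree hlam
  choose! r hr hr2 using fun (s : ℝ) (hs : 1 ≤ s) => Pool.Agent.Helper43.AS.asym_p hs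
  refine ⟨fun s => if s = 1 then 16 else if 1 ≤ s then r s else 1,
    fun lam => if 4 ≤ lam then 16 else if Real.exp 1 < lam then q lam else 1, ?_, if_pos rfl, ?_,
    fun lam h => if_pos h, ?_⟩
  · intro s
    dsimp only
    split_ifs with h1 h2
    · norm_num
    · exact hr s h2
    · norm_num
  · intro lam
    dsimp only
    split_ifs with h1 h2
    · norm_num
    · exact hq lam h2
    · norm_num
  intro n hn K hK p
  refine ⟨?_, ?_⟩
  · intro s hs hx hp
    obtain ⟨x, hx⟩ := hx
    rcases hp with hp | ⟨hn2, hp⟩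
    · dsimp only at hp
      by_cases h1 : s = 1
      · rw [if_pos h1] at hp
        subst h1
        exact Pool.Agent.Helper43.AS.asym_p_one hn hp hK.isCompact hK.convex
          hK.interior_nonempty hx
      · rw [if_neg h1, if_pos hs] at hp
        exact hr2 s hs n hn p hp K hK.isCompact hK.convex hK.interior_nonempty x hx
    · exact Pool.Agent.Helper43.AS.asym_p_expl hs hn hn2 hp hK.isCompact hK.convex
        hK.interior_nonempty hx
  · intro lam hlam hM hp
    dsimp only at hp
    by_cases h4 : 4 ≤ lam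
    · rw [if_pos h4] at hp
      have h5 : ENNReal.ofReal (4 ^ n) ≤ Pool.Agent.Helper57K1.MC.mahlerInf K := by
        refine le_trans (ENNReal.ofReal_le_ofReal ?_) hM
        gcongr
      exact Pool.Agent.Helper98.DF.explicit hn hp hK.isCompact hK.convex hK.interior_nonempty h5
    · rw [if_neg h4, if_pos hlam] at hp
      exact hq2 lam hlam n hn p hp K hK.isCompact hK.convex hK.interior_nonempty hM

end Pool.Agent.Results.MP_5f4cdd_gt.DimensionFree
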