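import Pool.Agent.Helper7LP.LPf
import Pool.Agent.Helper57K1.LP.G
import Pool.Agent.Helper57K1.MC.H
import Pool.Agent.Helper56LP.Lim
import Pool.Agent.Helper56LP.Gap

/-!
# Mahler's conjecture for general convex bodies, and its `L^p` version for all large `p`

For every `n ≥ 1` there are `c > 0` and `p₀` such that for all `p ∈ [p₀, ∞]`, `p = ∞` included,
and all convex bodies `K` of `ℝ^n`, in any position with respect to the origin,
`M_p (K) ≥ (1 + c gap (K)) inf M_p (Δ - x)`, with equality `M_p (K) = inf M_p (Δ - x)` exactly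
for the simplices with centroid at the origin. For `p = ∞` this is Mahler's conjecture for
general convex bodies, in every dimension, and the infimum is `(n+1)^(n+1) / n!`.
-/

set_option autoImplicit false

open MeasureTheory
open scoped ENNReal

namespace Pool.Agent.Results.MP_5f4cdd_gt.GeneralMahler

/-- the Euclidean space `ℝ^n` -/
abbrev E (n : ℕ) : Type := EuclideanSpace ℝ (Fin n)

/-- the `L^p` support function `(1/p) log (∫_K exp (p ⟨x, y⟩) dx / |K|)` of `K` for finite `p`,
and the support function `sup {⟨x, y⟩ : x ∈ K}` for `p = ∞` -/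
noncomputable def support (p : ℝ≥0∞) {n : ℕ} (K : Set (E n)) (y : E n) : ℝ :=
  if p = ∞ then sSup ((fun x : E n => inner ℝ x y) '' K)
  else (1 / p.toReal) *
    Real.log ((∫ x in K, Real.exp (p.toReal * inner ℝ x y)) / volume.real K)

/-- the `L^p` Mahler volume `M_p (K) = |K| ∫ exp (-h_{p,K})`, for `p = ∞` the Mahler volume -/
noncomputable def mahler (p : ℝ≥0∞) {n : ℕ} (K : Set (E n)) : ℝ≥0∞ :=
  volume K * ∫⁻ y : E n, ENNReal.ofReal (Real.exp (-support p K y))

/-- the standard simplex `Δ_n` -/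
def simplex (n : ℕ) : Set (E n) := {z | (∀ i, 0 ≤ z i) ∧ ∑ i, z i ≤ 1}

/-- the right hand side of the conjectured inequality -/
noncomputable def simplexMin (p : ℝ≥0∞) (n : ℕ) : ℝ≥0∞ :=
  ⨅ x ∈ simplex n, mahler p ((fun z => z - x) '' simplex n)

/-- convex bodies -/
structure IsConvexBody {n : ℕ} (K : Set (E n)) : Prop where
  isCompact : IsCompact K
  convex : Convex ℝ K
  interior_nonempty : (interior K).Nonempty

/-- the distance to the simplices: `|Δ_n|` minus the largest volume of an affine image of `K`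
contained in `Δ_n` -/
noncomputable def gap {n : ℕ} (K : Set (E n)) : ℝ :=
  volume.real (simplex n) -
    sSup {v : ℝ | ∃ T : E n ≃ᵃ[ℝ] E n, T '' K ⊆ simplex n ∧ v = volume.real (T '' K)}

/-- **Mahler's conjecture for general convex bodies, in every dimension, and its `L^p` version
for all `p ≥ p₀ (n)`, with the case of equality and with stability.** -/
theorem result {n : ℕ} (hn : 0 < n) :
    -- the value for `p = ∞`
    simplexMin ∞ n = ENNReal.ofReal (((n : ℝ) + 1) ^ (n + 1) / (n.factorial : ℝ)) ∧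
    ∃ c p₀ : ℝ, 0 < c ∧ 0 < p₀ ∧ ∀ K : Set (E n), IsConvexBody K →
      0 ≤ gap K ∧ (gap K = 0 ↔ ∃ v : Fin (n + 1) → E n, K = convexHull ℝ (Set.range v)) ∧
      -- all `p ∈ [p₀, ∞]`, with `p = ∞` included
      ∀ p : ℝ≥0∞, ENNReal.ofReal p₀ ≤ p →
        ENNReal.ofReal (1 + c * gap K) * simplexMin p n ≤ mahler p K ∧
        (mahler p K = simplexMin p n ↔
          ∃ v : Fin (n + 1) → E n, ∑ i, v i = 0 ∧ K = convexHull ℝ (Set.range v)) := by
  have eLp : ∀ (p : ℝ≥0∞) (L : Set (E n)), p ≠ ∞ →
      mahler p L = Pool.Agent.Y513.LPM.mahlerLp p.toReal L := by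
    intro p L hp
    unfold mahler support
    simp only [if_neg hp]
    rfl
  have eInf : ∀ L : Set (E n), mahler ∞ L = Pool.Agent.Helper57K1.MC.mahlerInf L := by
    intro L
    unfold mahler support
    simp only [if_true]
    rfl
  have hval : simplexMin ∞ n =
      ENNReal.ofReal (((n : ℝ) + 1) ^ (n + 1) / (n.factorial : ℝ)) := by
    have h1 := Pool.Agent.Helper57K1.MC.simplexMin_eq (n := n) Pool.Agent.Helper57K1.MC.t_MC
    unfold simplexMin
    simp only [eInf]
    exact h1
  obtain ⟨c, p₀, hc, hp₀, h⟩ := Pool.Agent.Helper7LP.largeP n hn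
  refine ⟨hval, c, p₀, hc, by linarith, fun K hK => ?_⟩
  obtain ⟨T, hT, hmax, hTp⟩ := h K hK.isCompact hK.convex hK.interior_nonempty
  have hgap : gap K = volume.real (simplex n) - volume.real (T '' K) := by
    unfold gap
    congr 1
    refine IsGreatest.csSup_eq ⟨⟨T, hT, rfl⟩, ?_⟩
    rintro _ ⟨T', hT', rfl⟩
    exact hmax T' hT'
  have hcpt : IsCompact (simplex n) := Pool.Agent.Helper57K1.LM.simplex_compact n
  have h0 : 0 ≤ gap K := by
    rw [hgap]
    exact sub_nonneg.2 (measureReal_mono hT hcpt.measure_lt_top.ne)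
  refine ⟨h0, ⟨fun hg => ?_, ?_⟩, fun p hp => ?_⟩
  · refine Pool.Agent.Helper56LP.hull_of_image (T := T)
      (Pool.Agent.Helper56LP.eq_simplex_of_vol
        (hK.isCompact.image (AffineEquiv.continuous_of_finiteDimensional T)) hT ?_)
    rw [hgap] at hg
    exact (sub_eq_zero.1 hg).symm
  · rintro ⟨v, hv⟩
    obtain ⟨T', hT'⟩ := Pool.Agent.Helper56LP.image_of_hull hK.interior_nonempty hv
    have h1 := hmax T' hT'.subset
    rw [hT'] at h1
    refine le_antisymm ?_ h0
    rw [hgap]
    exact sub_nonpos.2 h1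
  by_cases hpt : p = ∞
  · subst hpt
    refine ⟨?_, ?_⟩
    · rw [hval, hgap, eInf]
      refine Pool.Agent.Helper56LP.le_inf_of_le hK.isCompact hK.convex hK.interior_nonempty
        (p₀ := p₀) fun p hp => ?_
      have hp0 : 0 < p := by linarith
      refine le_trans ?_ (hTp p hp).1
      refine mul_le_mul' le_rfl ?_
      have h1 := Pool.Agent.Helper57K1.MC.inf_D0 (n := n) Pool.Agent.Helper57K1.MC.t_MC
      have h2 := Pool.Agent.Helper57K1.MC.inf_le_lp hp0 (Pool.Agent.Helper57K1.LS.D0_compact n)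
        (Pool.Agent.Helper57K1.LS.D0_convex n) ⟨0, Pool.Agent.Helper57K1.LS.D0_zero n⟩
      rw [h1] at h2
      exact h2
    · have h1 := Pool.Agent.Helper57K1.MC.eq_iff' hK.isCompact hK.convex hK.interior_nonempty
      rw [Pool.Agent.Helper57K1.MC.simplexMin_eq Pool.Agent.Helper57K1.MC.t_MC] at h1
      rw [hval, eInf]
      exact h1
  · have hpr : p₀ ≤ p.toReal := (ENNReal.ofReal_le_iff_le_toReal hpt).1 hp
    have hp0 : 0 < p.toReal := by linarith
    have hmin : simplexMin p n =
        Pool.Agent.Y513.LPM.mahlerLp p.toReal (Pool.Agent.Helper57K1.LS.D0 n) := by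
      have h1 := Pool.Agent.Helper57K1.LP.min_eq (n := n) hp0
      unfold simplexMin
      simp only [fun L => eLp p L hpt]
      exact h1
    obtain ⟨h1, h2⟩ := hTp p.toReal hpr
    rw [hmin, hgap, eLp p K hpt]
    refine ⟨h1, fun he => h2 he.le, ?_⟩
    rintro ⟨v, hv0, hv⟩
    exact Pool.Agent.Helper57K1.LP.hull_eq hK.interior_nonempty hv0 hv

end Pool.Agent.Results.MP_5f4cdd_gt.GeneralMahler
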