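import Pool.Agent.Helper57K1.ST.F
import Pool.Agent.Helper98.FS.RA
import Pool.Agent.Helper31.FS.RP

/-!
# The non-symmetric `L^p` Mahler inequality for iterated joins and free sums of planar bodies

Let `m_p` be the infimum of the `L^p` Mahler volumes of the translates of the standard simplex of
`ℝ^n` by its points. For all `n ≥ 1` and `0 < p < ∞` there is `c > 0` such that
`M_p (K) ≥ (1 + c gap (K)) m_p` for all convex bodies `K` in `ℝ^n`, in any position with respect to
the origin, that are obtained from points and convex bodies of dimension at most two by finitely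
many joins and free sums, in any order, with equality `M_p (K) = m_p` exactly for the simplices with
centroid at the origin. A free sum is the convex hull of the union of two convex sets with a common
point, which may be any common point, whose directions are linearly independent; in a join the two
sets have no common point and the dimension is `d + d' + 1`.
-/

set_option autoImplicit false

open MeasureTheory

namespace Pool.Agent.Results.MP_5f4cdd_gt.JoinsFreeSums

/-- the Euclidean space `ℝ^n` -/
abbrev E (n : ℕ) : Type := EuclideanSpace ℝ (Fin n)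

/-- the `L^p` support function `(1/p) log (∫_K exp (p ⟨x, y⟩) dx / |K|)` -/
noncomputable def supportLp (p : ℝ) {n : ℕ} (K : Set (E n))
    (y : E n) : ℝ :=
  (1 / p) * Real.log ((∫ x in K, Real.exp (p * inner ℝ x y)) / volume.real K)

/-- the `L^p` Mahler volume `|K| ∫ exp (-h_{p,K})` -/
noncomputable def mahlerLp (p : ℝ) {n : ℕ} (K : Set (E n)) : ENNReal :=
  volume K * ∫⁻ y : E n, ENNReal.ofReal (Real.exp (-supportLp p K y))

/-- the standard simplex -/
def simplex (n : ℕ) : Set (E n) := {z | (∀ i, 0 ≤ z i) ∧ ∑ i, z i ≤ 1}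

/-- the right hand side of the conjectured inequality -/
noncomputable def simplexMin (p : ℝ) (n : ℕ) : ENNReal :=
  ⨅ x ∈ simplex n, mahlerLp p ((fun z => z - x) '' simplex n)

/-- the distance to the simplices: `|Δ_n|` minus the largest volume of an affine image of `K`
contained in `Δ_n` -/
noncomputable def gap {n : ℕ} (K : Set (E n)) : ℝ :=
  volume.real (simplex n) -
    sSup {v : ℝ | ∃ T : E n ≃ᵃ[ℝ] E n, T '' K ⊆ simplex n ∧ v = volume.real (T '' K)}

/-- `JoinSum n d S`: the set `S ⊆ ℝ^n` is a union of points and of compact subsets of planes, and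
`conv S` is built from the convex hulls of these pieces by joins and free sums. The number `d`
counts the dimension: `0` for a point, `2` for a planar piece, `d + d' + 1` for a join, and
`d + d'` for a free sum, that is, for two sets whose convex hulls have a common point. -/
inductive JoinSum (n : ℕ) : ℕ → Set (E n) → Prop
  | point (x : E n) : JoinSum n 0 {x}
  | planar {S : Set (E n)} (P : AffineSubspace ℝ (E n))
      (hP : Module.finrank ℝ P.direction ≤ 2) (hSP : S ⊆ P) (hS : IsCompact S) : JoinSum n 2 S
  | join {d d' : ℕ} {S S' : Set (E n)} (h : JoinSum n d S)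
      (h' : JoinSum n d' S') : JoinSum n (d + d' + 1) (S ∪ S')
  | sum {d d' : ℕ} {S S' : Set (E n)} (h : JoinSum n d S)
      (h' : JoinSum n d' S') (hSS' : (convexHull ℝ S ∩ convexHull ℝ S').Nonempty) :
      JoinSum n (d + d') (S ∪ S')

/-- the same class in the helper modules -/
lemma JoinSum.toHelper {n : ℕ} {d : ℕ} {S : Set (E n)}
    (h : JoinSum n d S) : Pool.Agent.Helper57K1.FS.JoinSum n d S := by
  induction h with
  | point x => exact .point x
  | planar P hP hSP hS => exact .planar P hP hSP hS
  | join _ _ ih ih' => exact .join ih ih'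
  | sum _ _ hSS' ih ih' => exact .sum ih ih' hSS'

/-- for example, the vertices of the cross-polytope of dimension `k + 1` in `ℝ^n` -/
lemma JoinSum.cross {n : ℕ} (k : ℕ) (hk : k < n) :
    JoinSum n (k + 1) {x | ∃ i : Fin n, (i : ℕ) ≤ k ∧
      (x = EuclideanSpace.single i 1 ∨ x = -EuclideanSpace.single i 1)} := by
  have key : ∀ (j : Fin n) (T : Set (E n)),
      T = {EuclideanSpace.single j 1} ∪ {-EuclideanSpace.single j 1} →
      JoinSum n 1 T ∧ (0 : E n) ∈ convexHull ℝ T := by
    rintro j T rfl
    refine ⟨.join (.point _) (.point _), ?_⟩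
    have h := convex_convexHull ℝ ({EuclideanSpace.single j (1 : ℝ)} ∪
      {-EuclideanSpace.single j (1 : ℝ)} : Set (E n))
      (subset_convexHull ℝ _ (Or.inl rfl)) (subset_convexHull ℝ _ (Or.inr rfl))
      (show (0 : ℝ) ≤ 1 / 2 by norm_num) (show (0 : ℝ) ≤ 1 / 2 by norm_num) (by norm_num)
    simpa using h
  induction k with
  | zero =>
    refine (key ⟨0, hk⟩ _ ?_).1
    ext x
    constructor
    · rintro ⟨i, hi, h⟩
      have hi0 : i = ⟨0, hk⟩ := Fin.ext (Nat.le_zero.1 hi)
      rw [← hi0]
      exact h
    · intro h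
      exact ⟨⟨0, hk⟩, le_rfl, h⟩
  | succ k ih =>
    have e : {x : E n | ∃ i : Fin n, (i : ℕ) ≤ k + 1 ∧
        (x = EuclideanSpace.single i 1 ∨ x = -EuclideanSpace.single i 1)} =
        {x | ∃ i : Fin n, (i : ℕ) ≤ k ∧
          (x = EuclideanSpace.single i 1 ∨ x = -EuclideanSpace.single i 1)} ∪
        ({EuclideanSpace.single ⟨k + 1, hk⟩ 1} ∪ {-EuclideanSpace.single ⟨k + 1, hk⟩ 1}) := by
      ext x
      constructor
      · rintro ⟨i, hi, h⟩
        rcases Nat.lt_or_ge k (i : ℕ) with h1 | h1
        · have hi0 : i = ⟨k + 1, hk⟩ := Fin.ext (le_antisymm hi h1)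
          right
          rw [← hi0]
          exact h
        · exact Or.inl ⟨i, h1, h⟩
      · rintro (⟨i, hi, h⟩ | h)
        · exact ⟨i, hi.trans (Nat.le_succ k), h⟩
        · exact ⟨⟨k + 1, hk⟩, le_rfl, h⟩
    rw [e]
    refine .sum (ih (by omega)) (key ⟨k + 1, hk⟩ _ rfl).1 ⟨0, ?_, (key ⟨k + 1, hk⟩ _ rfl).2⟩
    refine convexHull_mono ?_ (key ⟨0, by omega⟩ _ rfl).2
    intro x hx
    exact ⟨⟨0, by omega⟩, Nat.zero_le _, hx⟩

/-- for example, all compact sets in the plane -/
lemma JoinSum.plane {S : Set (E 2)} (hS : IsCompact S) : JoinSum 2 2 S :=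
  .planar ⊤ (by
    rw [AffineSubspace.direction_top, finrank_top]
    simp) (fun _ _ => trivial) hS

/-- for example, finite sets of points -/
lemma JoinSum.points {n : ℕ} {ι : Type} [DecidableEq ι] (f : ι → E n) (s : Finset ι)
    (hs : s.Nonempty) : JoinSum n (s.card - 1) (f '' s) := by
  induction hs using Finset.Nonempty.cons_induction with
  | singleton a =>
    rw [Finset.coe_singleton, Set.image_singleton, Finset.card_singleton]
    exact .point (f a)
  | cons a s ha hs ih =>
    have h1 := JoinSum.join (.point (f a)) ih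
    have h2 := hs.card_pos
    have h3 : 0 + (s.card - 1) + 1 = (Finset.cons a s ha).card - 1 := by
      rw [Finset.card_cons]
      omega
    rw [h3] at h1
    rw [Finset.coe_cons, Set.image_insert_eq]
    exact h1

/-- for example, `n + 2` points in `ℝ^n`, by Radon's theorem -/
lemma JoinSum.radon {n : ℕ} (f : Fin (n + 2) → E n) : JoinSum n n (Set.range f) := by
  have hf : ¬ AffineIndependent ℝ f := by
    intro h
    have h1 := h.card_le_finrank_succ
    have h2 := Submodule.finrank_le (vectorSpan ℝ (Set.range f))
    rw [finrank_euclideanSpace_fin] at h2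
    rw [Fintype.card_fin] at h1
    omega
  obtain ⟨I, hI⟩ := Convex.radon_partition hf
  classical
  have e1 : f '' I = f '' ((Finset.univ.filter (· ∈ I) : Finset (Fin (n + 2))) : Set _) := by
    simp
  have e2 : f '' Iᶜ = f '' ((Finset.univ.filter (¬ · ∈ I) : Finset (Fin (n + 2))) : Set _) := by
    congr 1
    ext x
    simp
  have h1 : (Finset.univ.filter (· ∈ I) : Finset (Fin (n + 2))).Nonempty := by
    rw [Finset.nonempty_iff_ne_empty]
    intro h
    rw [e1, h] at hI
    simp at hI
  have h2 : (Finset.univ.filter (¬ · ∈ I) : Finset (Fin (n + 2))).Nonempty := by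
    rw [Finset.nonempty_iff_ne_empty]
    intro h
    rw [e2, h] at hI
    simp at hI
  rw [e1, e2] at hI
  have h3 := JoinSum.sum (JoinSum.points f _ h1) (JoinSum.points f _ h2) hI
  have h4 := Finset.card_filter_add_card_filter_not (s := (Finset.univ : Finset (Fin (n + 2))))
    (· ∈ I)
  rw [Finset.card_univ, Fintype.card_fin] at h4
  have h5 := h1.card_pos
  have h6 := h2.card_pos
  have h7 : (Finset.univ.filter (· ∈ I) : Finset (Fin (n + 2))).card - 1 +
      ((Finset.univ.filter (¬ · ∈ I) : Finset (Fin (n + 2))).card - 1) = n := by omega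
  rw [h7, ← e1, ← e2, ← Set.image_union, Set.union_compl_self, Set.image_univ] at h3
  exact h3

/-- **The `L^p` Mahler inequality, `0 < p < ∞`, for all convex bodies built from points and planar
convex bodies by joins and free sums, with the case of equality and with stability.** -/
theorem result {n : ℕ} (hn : 0 < n) {p : ℝ} (hp : 0 < p) :
    ∃ c : ℝ, 0 < c ∧ ∀ (d : ℕ) (S : Set (E n)), JoinSum n d S → d ≤ n →
      (interior (convexHull ℝ S)).Nonempty →
      0 ≤ gap (convexHull ℝ S) ∧
      (gap (convexHull ℝ S) = 0 ↔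
        ∃ v : Fin (n + 1) → E n, convexHull ℝ S = convexHull ℝ (Set.range v)) ∧
      ENNReal.ofReal (1 + c * gap (convexHull ℝ S)) * simplexMin p n ≤
        mahlerLp p (convexHull ℝ S) ∧
      (mahlerLp p (convexHull ℝ S) = simplexMin p n ↔
        ∃ v : Fin (n + 1) → E n, ∑ i, v i = 0 ∧
          convexHull ℝ S = convexHull ℝ (Set.range v)) := by
  obtain ⟨c, hc, h⟩ := Pool.Agent.Helper57K1.ST.final hp hn Pool.Agent.Helper98.FS.red_few
    (Pool.Agent.Helper31.FS.red_planar Pool.Agent.Helper98.FS.red_few)
  exact ⟨c, hc, fun d S hS hd hi => h d S hS.toHelper hd hi⟩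

end Pool.Agent.Results.MP_5f4cdd_gt.JoinsFreeSums
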