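import Pool.Agent.Helper57K1.LS.L

/-!
# The simplex is a strict and stable local minimiser of the `L^p` Mahler volume

For every `n ≥ 1` and every `0 < p < ∞` the non-symmetric `L^p` Mahler inequality holds, with
equality only for simplices, for all convex bodies `K` of `ℝ^n` which fill almost all of some
simplex containing them (in any position with respect to the origin).  The deficit is at least
linear in the volume that `K` misses in a suitable simplex containing it.
-/

set_option autoImplicit false

open MeasureTheory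

namespace Pool.Agent.Results.MP_5f4cdd_gt.SimplexLocalMin

/-- the Euclidean space `ℝ^n` -/
abbrev E (n : ℕ) : Type := EuclideanSpace ℝ (Fin n)

/-- the `L^p` support function `(1/p) log (∫_K exp (p ⟨x, y⟩) dx / |K|)` -/
noncomputable def supportLp (p : ℝ) {n : ℕ} (K : Set (E n)) (y : E n) : ℝ :=
  (1 / p) * Real.log ((∫ x in K, Real.exp (p * inner ℝ x y)) / volume.real K)

/-- the `L^p` Mahler volume `|K| ∫ exp (-h_{p,K})` -/
noncomputable def mahlerLp (p : ℝ) {n : ℕ} (K : Set (E n)) : ENNReal :=
  volume K * ∫⁻ y : E n, ENNReal.ofReal (Real.exp (-supportLp p K y))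

/-- the standard simplex -/
def simplex (n : ℕ) : Set (E n) := {z | (∀ i, 0 ≤ z i) ∧ ∑ i, z i ≤ 1}

/-- the right hand side of the conjectured inequality -/
noncomputable def simplexMin (p : ℝ) (n : ℕ) : ENNReal :=
  ⨅ x ∈ simplex n, mahlerLp p ((fun z => z - x) '' simplex n)

/-- the volume missed in the standard simplex -/
noncomputable def missing {n : ℕ} (K : Set (E n)) : ℝ := volume.real (simplex n) - volume.real K

/-- `L` is the image of `K` under a bijective affine map -/
def AffineImage {n : ℕ} (K L : Set (E n)) : Prop := ∃ T : E n ≃ᵃ[ℝ] E n, T '' K = L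

/-- **Local minimality of the simplex, with linear stability.** -/
theorem result {n : ℕ} (hn : 0 < n) {p : ℝ} (hp : 0 < p) :
    ∃ ε c : ℝ, 0 < ε ∧ 0 < c ∧
      ∀ K L : Set (E n), IsCompact K → Convex ℝ K →
        AffineImage K L → L ⊆ simplex n → missing L ≤ ε →
        ∃ L' : Set (E n), AffineImage K L' ∧ L' ⊆ simplex n ∧ missing L' ≤ missing L ∧
          ENNReal.ofReal (1 + c * missing L') * simplexMin p n ≤ mahlerLp p K ∧
          (mahlerLp p K = simplexMin p n → L' = simplex n) := by
  obtain ⟨ε, c, hε0, hε1, hc0, h⟩ := Pool.Agent.Helper57K1.LS.local_min (p := p) hp n hn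
  have hV : 0 < volume.real (simplex n) := Pool.Agent.Helper57K1.LS.vol_pos n
  refine ⟨ε * volume.real (simplex n), c, by positivity, hc0, ?_⟩
  rintro K L hKc hKx ⟨T, rfl⟩ hsub hvol
  obtain ⟨T', h1, h2, h3, h4⟩ := h K T hKc hKx hsub (by
    unfold missing at hvol
    change (1 - ε) * volume.real (simplex n) ≤ volume.real (T '' K)
    linarith)
  have hle : simplexMin p n ≤
      mahlerLp p ((fun z => z - Pool.Agent.Helper57K1.LS.cen n) '' simplex n) :=
    iInf₂_le _ Pool.Agent.Helper57K1.LS.cen_mem
  exact ⟨T' '' K, ⟨T', rfl⟩, h1, sub_le_sub_left h2 _, (mul_le_mul_right hle _).trans h3,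
    fun he => h4 (he.le.trans hle)⟩

end Pool.Agent.Results.MP_5f4cdd_gt.SimplexLocalMin
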